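import Pool.Agent.Q201.SG.Game

/-!
# `A_k`-automata with `k ≥ 2 n` have reset threshold at most `n - 1`

The definitions (`act`, `Reset`, `pos`, `hist`, `IsA`, `rt`) are in
`Pool/Agent/Q201/SG/Game.lean`.

Idea of the proof.  Let `C_j` be the set of pairs of states which remain mergeable by one letter
under all words of length at most `j`, and `E_j` the equivalence relation generated by `C_j`.  Since
Alice wins the `k`-game, `C_k` contains a pair of distinct states.  The relations `E_j` become
coarser as `j` decreases, a letter maps `E_(j+1)` into `E_j`, and there are at most `n` classes, so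
some `E_(j+1) = E_j` with `j ≥ n` is a nontrivial congruence.  The classes of `E_j` are collapsed by
a word which merges one more pair with each letter, and the quotient is treated by induction.
-/

set_option autoImplicit false

namespace Pool.Agent.Results.MP_165503_lc.LinearThreshold

open Pool.Agent.Q201.SG

/-- There are constants `C, D > 0` (in fact `C = 1`, `D = 2`) such that every `A_k`-automaton with
`n` states and `k ≥ D n` is synchronizing with reset threshold at most `C n`; in fact the reset
threshold is at most `n - 1` as soon as `k ≥ 2 n`. -/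
theorem result :
    (∃ C D : ℝ, 0 < C ∧ 0 < D ∧ ∀ (Q A : Type) [Finite Q] [Nonempty Q] [Finite A] [Nonempty A]
      (δ : Q → A → Q) (k : ℕ), D * Nat.card Q ≤ k → IsA δ k →
        (∃ w, Reset δ w) ∧ (rt δ : ℝ) ≤ C * Nat.card Q) ∧
    (∀ (Q A : Type) [Finite Q] [Nonempty Q] [Finite A] [Nonempty A] (δ : Q → A → Q) (k : ℕ),
      2 * Nat.card Q ≤ k → IsA δ k → (∃ w, Reset δ w) ∧ rt δ ≤ Nat.card Q - 1) := by
  have key : ∀ (Q A : Type) [Finite Q] [Nonempty Q] [Finite A] [Nonempty A] (δ : Q → A → Q)
      (k : ℕ), 2 * Nat.card Q ≤ k → IsA δ k → (∃ w, Reset δ w) ∧ rt δ ≤ Nat.card Q - 1 := by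
    intro Q A _ _ _ _ δ k hk hA
    obtain ⟨w, hw, hw'⟩ := exists_reset hA hk
    refine ⟨⟨w, hw⟩, ?_⟩
    have : rt δ ≤ w.length := Nat.sInf_le ⟨w, hw, rfl⟩
    omega
  refine ⟨⟨1, 2, one_pos, two_pos, ?_⟩, key⟩
  intro Q A _ _ _ _ δ k hk hA
  obtain ⟨h1, h2⟩ := key Q A δ k (by exact_mod_cast hk) hA
  refine ⟨h1, ?_⟩
  have : rt δ ≤ Nat.card Q := h2.trans (Nat.sub_le _ _)
  rw [one_mul]
  exact_mod_cast this

end Pool.Agent.Results.MP_165503_lc.LinearThreshold
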